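import Pool.Agent.H27.FOGrp

set_option autoImplicit false

namespace Pool.Agent.Results.MP_6e5331_al.Negative

open Pool.Agent.H27.FOGrp

universe u

/-- There are an orderable group `G` and a first-order sentence of the language of groups that
holds in every pro-orderable group and fails in `G`. -/
theorem result : ∃ (G : Type) (_ : Group G) (φ : groupLang.Sentence), Orderable G ∧
    (∀ (H : Type u) [Group H], ProOrderable H → FirstOrder.Language.Sentence.Realize H φ) ∧
    ¬ FirstOrder.Language.Sentence.Realize G φ :=
  ⟨GG, inferInstance, phi, orderable, fun _ _ h => pro_phi h, fun h => r_phi.1 h ⟨_, _, bad⟩⟩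

end Pool.Agent.Results.MP_6e5331_al.Negative
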